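import Pool.Agent.Q69.AvgFactor

/-!
# MP_bdee7b_an, Q1: the average shadowing property passes to factors
-/

set_option autoImplicit false

namespace Pool.Agent.Results.MP_bdee7b_an.AverageFactor

open Q69.AvgFactor

/-- Every factor of a system with the average shadowing property has the average shadowing
property. -/
theorem result {X Y : Type*} [MetricSpace X] [CompactSpace X] [MetricSpace Y] [CompactSpace Y]
    (f : X → X) (_hf : Continuous f) (g : Y → Y) (hg : Continuous g)
    (p : X → Y) (hpc : Continuous p) (hps : Function.Surjective p) (hp : p ∘ f = g ∘ p)
    (h : HasAvgShadowing f) : HasAvgShadowing g :=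
  avgShadowing_factor hg hpc hps (fun x => congrFun hp x) h

end Pool.Agent.Results.MP_bdee7b_an.AverageFactor
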